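import Pool.Agent.Lib.MP_546591_co.Main

/-!
# The conjectured formula for `α(d,4,s)` is false in every dimension `d ≥ 3`

For all `d ≥ 3` and `s ∈ [1/4, 1/2]` we have `α(d,4,s) ≥ min(d/2, (d+4)/(8s))` if `d` is even and
`α(d,4,s) ≥ min(d/2, (d+3)/(8s))` if `d` is odd.  The conjectured value is strictly smaller for every
`s > (d+2)/(4d)` (`d` even), respectively every `s > (d+1)/(4d)` (`d` odd).
-/

namespace Pool.Agent.Results.MP_546591_co.Disproof

open Pool.Agent.MP_546591_co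

theorem result (d : ℕ) (hd : 3 ≤ d) (s : ℝ) (h1 : 1 / 4 ≤ s) (h2 : s ≤ 1 / 2) :
    min ((d : ℝ) / 2) ((if Even d then (d : ℝ) + 4 else (d : ℝ) + 3) / (8 * s)) ≤ alpha d s ∧
      ((if Even d then (d : ℝ) + 2 else (d : ℝ) + 1) / (4 * d) < s →
        conjValue d s < alpha d s) :=
  ⟨lower_bound d hd s h1 h2, conjValue_lt d hd s h2⟩

end Pool.Agent.Results.MP_546591_co.Disproof
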