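import Pool.Agent.Lib.MP_546591_co.Main

/-!
# Exact values of `α(d,4,s)`

For `d = 3` and for every even `d ≥ 4`: `α(d,4,s) = min(2d, d+4)/(8s)` for every
`s ∈ [1/4, 1/2]` for which this number is at most `d/2`.  So for even `d ≥ 4`,
`α(d,4,s) = (d+4)/(8s)` for all `s ∈ [(d+4)/(4d), 1/2]`, and `α(3,4,1/2) = 3/2`.
-/

namespace Pool.Agent.Results.MP_546591_co.ExactValues

open Pool.Agent.MP_546591_co

theorem result (d : ℕ) (hd : d = 3 ∨ (4 ≤ d ∧ Even d)) (s : ℝ) (h1 : 1 / 4 ≤ s) (h2 : s ≤ 1 / 2)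
    (h3 : min (2 * (d : ℝ)) (d + 4) / (8 * s) ≤ d / 2) :
    alpha d s = min (2 * (d : ℝ)) (d + 4) / (8 * s) :=
  exact_value d hd s h1 h2 h3

end Pool.Agent.Results.MP_546591_co.ExactValues
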